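import Mathlib

set_option autoImplicit false

open Cardinal Order

universe u

namespace Pool.Agent.Results.MP_0b62d6_lc.WeakExtImpliesWeakDistrib

/-- `B` is a Boolean `m`-algebra: every family of at most `m` elements has a join and a meet. -/
def IsMAlgebra (m : Cardinal.{u}) (B : Type u) [BooleanAlgebra B] : Prop :=
  ∀ (T : Type u) (a : T → B), #T ≤ m →
    (∃ j, IsLUB (Set.range a) j) ∧ (∃ k, IsGLB (Set.range a) k)

/-- The Boolean homomorphism `g` preserves the joins and meets of all families of at most `m`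
elements. -/
def IsMHom (m : Cardinal.{u}) {A B : Type u} [BooleanAlgebra A] [BooleanAlgebra B]
    (g : BoundedLatticeHom A B) : Prop :=
  ∀ (T : Type u) (a : T → A), #T ≤ m →
    (∀ j, IsLUB (Set.range a) j → IsLUB (Set.range fun t => g (a t)) (g j)) ∧
    (∀ k, IsGLB (Set.range a) k → IsGLB (Set.range fun t => g (a t)) (g k))

/-- The subalgebra `A₀` `m`-generates `A`: the only subalgebra of `A` that contains `A₀` and is
closed under the joins and meets (formed in `A`) of families of at most `m` elements is `A`. -/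
def MGenerates (m : Cardinal.{u}) {A : Type u} [BooleanAlgebra A]
    (A₀ : BooleanSubalgebra A) : Prop :=
  ∀ C : BooleanSubalgebra A, A₀ ≤ C →
    (∀ (T : Type u) (a : T → A), #T ≤ m → (∀ t, a t ∈ C) →
      (∀ j, IsLUB (Set.range a) j → j ∈ C) ∧ (∀ k, IsGLB (Set.range a) k → k ∈ C)) →
    C = ⊤

/-- Condition (a') for a homomorphism `f` of a subalgebra `A₀` of `A` into `B`: whenever the meet
in `A` of a family of at most `m` elements of `A₀` is `0`, the meet in `B` of the images is `0`. -/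
def ConditionA' (m : Cardinal.{u}) {A B : Type u} [BooleanAlgebra A] [BooleanAlgebra B]
    (A₀ : BooleanSubalgebra A) (f : BoundedLatticeHom A₀ B) : Prop :=
  ∀ (T : Type u) (a : T → A₀), #T ≤ m → IsGLB (Set.range fun t => (a t : A)) ⊥ →
    IsGLB (Set.range fun t => f (a t)) ⊥

/-- The weak `m`-extension property of `B`: for every Boolean `m`-algebra `A` and every
subalgebra `A₀` that `m`-generates `A`, every homomorphism `f : A₀ → B` satisfying (a') extends to
an `m`-homomorphism `A → B`. -/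
def WeakExtensionProperty (m : Cardinal.{u}) (B : Type u) [BooleanAlgebra B] : Prop :=
  ∀ (A : Type u) [BooleanAlgebra A], IsMAlgebra m A →
    ∀ A₀ : BooleanSubalgebra A, MGenerates m A₀ →
      ∀ f : BoundedLatticeHom A₀ B, ConditionA' m A₀ f →
        ∃ g : BoundedLatticeHom A B, IsMHom m g ∧ ∀ a : A₀, g (a : A) = f a

/-- `B` is weakly `m`-distributive: if `|T|, |S| ≤ m` and `⋁_s a t s = 1` for each `t`, then the
elements `⋀_t ⋁_{s ∈ Φ t} a t s`, for `Φ` a map from `T` to the finite non-empty subsets of `S`,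
have join `1`. -/
def WeaklyDistributive (m : Cardinal.{u}) (B : Type u) [BooleanAlgebra B] : Prop :=
  ∀ (T S : Type u), #T ≤ m → #S ≤ m → ∀ a : T → S → B,
    (∀ t, IsLUB (Set.range (a t)) ⊤) →
    IsLUB {b : B | ∃ Φ : T → Finset S, (∀ t, (Φ t).Nonempty) ∧
      IsGLB (Set.range fun t => (Φ t).sup (a t)) b} ⊤

/-! ### Stone representation -/

section Stone

variable {B : Type u} [BooleanAlgebra B]

theorem compl_notMem_iff (P : Ideal B) (hP : P.IsPrime) (b : B) : bᶜ ∉ P ↔ b ∈ P := by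
  constructor
  · intro h
    rcases hP.mem_or_mem (x := b) (y := bᶜ) (by simp) with h' | h'
    · exact h'
    · exact absurd h' h
  · intro h h'
    have : b ⊔ bᶜ ∈ P := Ideal.sup_mem h h'
    rw [sup_compl_eq_top] at this
    exact hP.toIsProper.top_notMem this

theorem inf_notMem_iff (P : Ideal B) (hP : P.IsPrime) (a b : B) :
    a ⊓ b ∉ P ↔ a ∉ P ∧ b ∉ P := by
  constructor
  · intro h
    exact ⟨fun h' => h (P.lower inf_le_left h'), fun h' => h (P.lower inf_le_right h')⟩
  · rintro ⟨h1, h2⟩ h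
    rcases hP.mem_or_mem h with h' | h'
    · exact h1 h'
    · exact h2 h'

/-- An element below no finite join of a family is separated from it by a prime ideal. -/
theorem exists_finset_of_forall_prime {S : Type u} (e : B) (a : S → B)
    (h : ∀ P : Ideal B, P.IsPrime → e ∉ P → ∃ s, a s ∉ P) :
    ∃ Φ : Finset S, e ≤ Φ.sup a := by
  by_contra hcon
  push Not at hcon
  classical
  let I : Ideal B :=
    { carrier := {x | ∃ Φ : Finset S, x ≤ Φ.sup a}
      lower' := by
        rintro x y hxy ⟨Φ, hΦ⟩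
        exact ⟨Φ, hxy.trans hΦ⟩
      nonempty' := ⟨⊥, ∅, by simp⟩
      directed' := by
        rintro x ⟨Φ, hΦ⟩ y ⟨Ψ, hΨ⟩
        refine ⟨x ⊔ y, ⟨Φ ∪ Ψ, ?_⟩, le_sup_left, le_sup_right⟩
        rw [Finset.sup_union]
        exact sup_le_sup hΦ hΨ }
  have hdisj : Disjoint ((PFilter.principal e : PFilter B) : Set B) (I : Set B) := by
    rw [Set.disjoint_left]
    rintro x hx ⟨Φ, hΦ⟩
    have hx' : e ≤ x := PFilter.mem_principal.1 hx
    exact hcon Φ (hx'.trans hΦ)
  obtain ⟨J, hJ, hIJ, hFJ⟩ := DistribLattice.prime_ideal_of_disjoint_filter_ideal hdisj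
  have heJ : e ∉ J := by
    intro he
    exact Set.disjoint_left.1 hFJ (PFilter.mem_principal.2 le_rfl) he
  obtain ⟨s, hs⟩ := h J hJ heJ
  exact hs (hIJ ⟨{s}, by simp⟩)

end Stone

/-! ### The test algebra: the `m`-field of subsets of `Z` generated by traces of clopen sets -/

/-- Membership in the `m`-field of sets generated by `G`. -/
inductive Gen (m : Cardinal.{u}) {Z : Type u} (G : Set (Set Z)) : Set Z → Prop
  | base (x : Set Z) : x ∈ G → Gen m G x
  | compl (x : Set Z) : Gen m G x → Gen m G xᶜ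
  | iUnion (T : Type u) (x : T → Set Z) : #T ≤ m → (∀ t, Gen m G (x t)) → Gen m G (⋃ t, x t)

namespace Gen

variable {m : Cardinal.{u}} {Z : Type u} {G : Set (Set Z)}

theorem iInter (T : Type u) (x : T → Set Z) (hT : #T ≤ m) (h : ∀ t, Gen m G (x t)) :
    Gen m G (⋂ t, x t) := by
  have : (⋂ t, x t) = (⋃ t, (x t)ᶜ)ᶜ := by simp [Set.compl_iUnion]
  rw [this]
  exact .compl _ (.iUnion T _ hT fun t => .compl _ (h t))

theorem union (hm : ℵ₀ ≤ m) {x y : Set Z} (hx : Gen m G x) (hy : Gen m G y) :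
    Gen m G (x ∪ y) := by
  have h2 : #(ULift.{u} Bool) ≤ m := by
    refine le_trans ?_ hm
    exact (Cardinal.lt_aleph0_of_finite _).le
  have : x ∪ y = ⋃ t : ULift.{u} Bool, (if t.down then x else y) := by
    ext z
    simp only [Set.mem_union, Set.mem_iUnion]
    constructor
    · rintro (h | h)
      · exact ⟨⟨true⟩, by simpa using h⟩
      · exact ⟨⟨false⟩, by simpa using h⟩
    · rintro ⟨⟨b⟩, h⟩
      cases b
      · exact Or.inr (by simpa using h)
      · exact Or.inl (by simpa using h)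
  rw [this]
  refine .iUnion _ _ h2 ?_
  rintro ⟨b⟩
  cases b
  · simpa using hy
  · simpa using hx

end Gen

/-- The `m`-field of sets generated by `G`, as a subalgebra of the power set algebra. -/
def genAlgebra (m : Cardinal.{u}) (hm : ℵ₀ ≤ m) {Z : Type u} (G : Set (Set Z)) :
    BooleanSubalgebra (Set Z) where
  carrier := {x | Gen m G x}
  supClosed' := by
    intro x hx y hy
    exact Gen.union hm hx hy
  infClosed' := by
    intro x hx y hy
    have : x ⊓ y = (xᶜ ∪ yᶜ)ᶜ := by
      rw [Set.compl_union, compl_compl, compl_compl]; rfl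
    change Gen m G (x ⊓ y)
    rw [this]
    exact .compl _ (Gen.union hm (.compl _ hx) (.compl _ hy))
  compl_mem' := by
    intro x hx
    exact .compl _ hx
  bot_mem' := by
    have : (⊥ : Set Z) = ⋃ t : PEmpty.{u + 1}, (PEmpty.elim t : Set Z) := by simp
    change Gen m G ⊥
    rw [this]
    exact .iUnion _ _ (by simp) (fun t => PEmpty.elim t)

theorem mem_genAlgebra (m : Cardinal.{u}) (hm : ℵ₀ ≤ m) {Z : Type u} (G : Set (Set Z))
    (x : Set Z) : x ∈ genAlgebra m hm G ↔ Gen m G x := Iff.rfl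

theorem isLUB_genAlgebra (m : Cardinal.{u}) (hm : ℵ₀ ≤ m) {Z : Type u} (G : Set (Set Z))
    (T : Type u) (x : T → genAlgebra m hm G) (hT : #T ≤ m) :
    IsLUB (Set.range x) ⟨⋃ t, (x t : Set Z), .iUnion T _ hT fun t => (x t).2⟩ := by
  constructor
  · rintro _ ⟨t, rfl⟩
    change (x t : Set Z) ⊆ _
    exact Set.subset_iUnion (fun t => (x t : Set Z)) t
  · intro u hu
    change (⋃ t, (x t : Set Z)) ⊆ (u : Set Z)
    exact Set.iUnion_subset fun t => hu ⟨t, rfl⟩

theorem isGLB_genAlgebra (m : Cardinal.{u}) (hm : ℵ₀ ≤ m) {Z : Type u} (G : Set (Set Z))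
    (T : Type u) (x : T → genAlgebra m hm G) (hT : #T ≤ m) :
    IsGLB (Set.range x) ⟨⋂ t, (x t : Set Z), Gen.iInter T _ hT fun t => (x t).2⟩ := by
  constructor
  · rintro _ ⟨t, rfl⟩
    change _ ⊆ (x t : Set Z)
    exact Set.iInter_subset (fun t => (x t : Set Z)) t
  · intro u hu
    change (u : Set Z) ⊆ (⋂ t, (x t : Set Z))
    exact Set.subset_iInter fun t => hu ⟨t, rfl⟩

/-- **Every Boolean `m`-algebra with the weak `m`-extension property is weakly
`m`-distributive**, for every infinite cardinal `m`. -/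
theorem result (m : Cardinal.{u}) (hm : ℵ₀ ≤ m) (B : Type u) [BooleanAlgebra B]
    (hB : IsMAlgebra m B) (hext : WeakExtensionProperty m B) : WeaklyDistributive m B := by
  classical
  intro T S hT hS a ha
  refine ⟨fun _ _ => le_top, ?_⟩
  intro u hu
  -- `c` is disjoint from every `A_Φ`
  by_contra hne
  have hc0 : uᶜ ≠ ⊥ := by
    intro h
    apply hne
    rw [compl_eq_bot] at h
    exact h.ge
  set c : B := uᶜ with hc
  -- the bad set in the Stone space
  let Y : Set {P : Ideal B // P.IsPrime} :=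
    {P | c ∉ P.1 ∧ ∀ t, ∃ s, a t s ∉ P.1}
  -- key: the only clopen set inside `Y` is empty
  have key : ∀ e : B, (∀ P : {P : Ideal B // P.IsPrime}, e ∉ P.1 → P ∈ Y) → e = ⊥ := by
    intro e he
    have h1 : e ≤ c := by
      obtain ⟨Φ, hΦ⟩ := exists_finset_of_forall_prime (S := PUnit.{u + 1}) e (fun _ => c)
        (fun P hP h => ⟨PUnit.unit, (he ⟨P, hP⟩ h).1⟩)
      refine hΦ.trans (Finset.sup_le fun _ _ => le_rfl)
    have h2 : ∀ t, ∃ Φ : Finset S, e ≤ Φ.sup (a t) := fun t =>
      exists_finset_of_forall_prime e (a t) (fun P hP h => (he ⟨P, hP⟩ h).2 t)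
    by_contra hebot
    have h3 : ∀ t, ∃ Φ : Finset S, Φ.Nonempty ∧ e ≤ Φ.sup (a t) := by
      intro t
      obtain ⟨Φ, hΦ⟩ := h2 t
      refine ⟨Φ, ?_, hΦ⟩
      rw [Finset.nonempty_iff_ne_empty]
      rintro rfl
      simp only [Finset.sup_empty, le_bot_iff] at hΦ
      exact hebot hΦ
    choose Φ hΦne hΦ using h3
    obtain ⟨b, hb⟩ := (hB T (fun t => (Φ t).sup (a t)) hT).2
    have heb : e ≤ b := hb.2 (by
      rintro _ ⟨t, rfl⟩
      exact hΦ t)
    have hbu : b ≤ u := hu ⟨Φ, hΦne, hb⟩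
    have : e ≤ u ⊓ uᶜ := le_inf (heb.trans hbu) h1
    rw [inf_compl_eq_bot, le_bot_iff] at this
    exact hebot this
  -- the base set of the test algebra
  let Z : Type u := {P : {P : Ideal B // P.IsPrime} // P ∉ Y}
  let tr : B → Set Z := fun b => {P | b ∉ P.1.1}
  have tr_compl : ∀ b, tr bᶜ = (tr b)ᶜ := by
    intro b
    ext P
    change bᶜ ∉ P.1.1 ↔ ¬ (b ∉ P.1.1)
    rw [compl_notMem_iff _ P.1.2, not_not]
  have tr_inf : ∀ b b', tr (b ⊓ b') = tr b ∩ tr b' := by
    intro b b'
    ext P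
    exact inf_notMem_iff _ P.1.2 b b'
  have tr_sup : ∀ b b', tr (b ⊔ b') = tr b ∪ tr b' := by
    intro b b'
    have h : b ⊔ b' = (bᶜ ⊓ b'ᶜ)ᶜ := by simp
    rw [h, tr_compl, tr_inf, tr_compl, tr_compl, Set.compl_inter, compl_compl, compl_compl]
  have tr_bot : tr ⊥ = ∅ := by
    ext P
    simp only [tr, Set.mem_empty_iff_false, iff_false]
    change ¬ (⊥ ∉ P.1.1)
    rw [not_not]
    exact P.1.1.bot_mem
  have tr_top : tr ⊤ = Set.univ := by
    have h : (⊤ : B) = ⊥ᶜ := by simp
    rw [h, tr_compl, tr_bot, Set.compl_empty]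
  have tr_eq_empty : ∀ b, tr b = ∅ → b = ⊥ := by
    intro b hb
    apply key
    intro P hP
    by_contra hPY
    have : (⟨P, hPY⟩ : Z) ∈ tr b := hP
    rw [hb] at this
    exact this
  have tr_inj : Function.Injective tr := by
    intro b b' hbb
    have h1 : b ⊓ b'ᶜ = ⊥ := by
      apply tr_eq_empty
      rw [tr_inf, tr_compl, hbb, Set.inter_compl_self]
    have h2 : b' ⊓ bᶜ = ⊥ := by
      apply tr_eq_empty
      rw [tr_inf, tr_compl, hbb, Set.inter_compl_self]
    apply le_antisymm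
    · exact (disjoint_compl_right_iff).1 (disjoint_iff.2 h1)
    · exact (disjoint_compl_right_iff).1 (disjoint_iff.2 h2)
  let A := genAlgebra m hm (Set.range tr)
  have trA : ∀ b, tr b ∈ A := fun b => Gen.base _ ⟨b, rfl⟩
  -- the test algebra is an `m`-algebra
  have hA : IsMAlgebra m A := fun T x hT =>
    ⟨⟨_, isLUB_genAlgebra m hm _ T x hT⟩, ⟨_, isGLB_genAlgebra m hm _ T x hT⟩⟩
  -- the subalgebra of traces of clopen sets
  let A₀ : BooleanSubalgebra A :=
    { carrier := {x | ∃ b, tr b = (x : Set Z)}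
      supClosed' := by
        rintro x ⟨b, hb⟩ y ⟨b', hb'⟩
        exact ⟨b ⊔ b', by rw [tr_sup, hb, hb']; rfl⟩
      infClosed' := by
        rintro x ⟨b, hb⟩ y ⟨b', hb'⟩
        exact ⟨b ⊓ b', by rw [tr_inf, hb, hb']; rfl⟩
      compl_mem' := by
        rintro x ⟨b, hb⟩
        exact ⟨bᶜ, by rw [tr_compl, hb]; rfl⟩
      bot_mem' := ⟨⊥, by rw [tr_bot]; rfl⟩ }
  have hgen : MGenerates m A₀ := by
    intro C hC hcl
    rw [eq_top_iff]
    rintro ⟨x, hx⟩ -
    induction hx with
    | base x hx =>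
      obtain ⟨b, rfl⟩ := hx
      exact hC ⟨b, rfl⟩
    | compl x hx ih => exact C.compl_mem ih
    | iUnion T x hT hx ih =>
      exact (hcl T (fun t => ⟨x t, hx t⟩) hT ih).1 _
        (isLUB_genAlgebra m hm _ T (fun t => ⟨x t, hx t⟩) hT)
  -- the homomorphism `f`
  have hf0 : ∀ x : A₀, ∃ b, tr b = ((x : A) : Set Z) := fun x => x.2
  choose f0 hf0 using hf0
  let f : BoundedLatticeHom A₀ B :=
    { toFun := f0
      map_sup' := by
        intro x y
        apply tr_inj
        rw [tr_sup, hf0, hf0, hf0]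
        rfl
      map_inf' := by
        intro x y
        apply tr_inj
        rw [tr_inf, hf0, hf0, hf0]
        rfl
      map_top' := by
        apply tr_inj
        rw [tr_top, hf0]
        rfl
      map_bot' := by
        apply tr_inj
        rw [tr_bot, hf0]
        rfl }
  have hfa : ConditionA' m A₀ f := by
    intro J x hJ hx
    refine ⟨fun _ _ => bot_le, ?_⟩
    intro e he
    have hlow : (⟨tr e, trA e⟩ : A) ∈ lowerBounds (Set.range fun t => (x t : A)) := by
      rintro _ ⟨t, rfl⟩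
      have hle : e ≤ f0 (x t) := he ⟨t, rfl⟩
      change tr e ⊆ ((x t : A) : Set Z)
      rw [← hf0]
      intro P hP
      exact fun h => hP (P.1.1.lower hle h)
    have hbot := hx.2 hlow
    have : tr e ⊆ ∅ := hbot
    exact (tr_eq_empty e (Set.subset_empty_iff.1 this)).le
  obtain ⟨g, hg, hgf⟩ := hext A hA A₀ hgen f hfa
  have hgtr : ∀ b, g ⟨tr b, trA b⟩ = b := by
    intro b
    have h := hgf ⟨⟨tr b, trA b⟩, ⟨b, rfl⟩⟩
    refine h.trans ?_
    apply tr_inj
    exact hf0 _
  -- joins over `s`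
  let U : T → A := fun t => ⟨⋃ s, tr (a t s), .iUnion S _ hS fun s => trA _⟩
  have hU : ∀ t, g (U t) = ⊤ := by
    intro t
    have h1 := (hg S (fun s => ⟨tr (a t s), trA _⟩) hS).1 _
      (isLUB_genAlgebra m hm _ S (fun s => ⟨tr (a t s), trA _⟩) hS)
    have h2 : (fun s => g ⟨tr (a t s), trA _⟩) = a t := by
      funext s
      exact hgtr _
    rw [h2] at h1
    exact h1.unique (ha t)
  let W : A := ⟨⋂ t, (U t : Set Z), Gen.iInter T _ hT fun t => (U t).2⟩
  have hW : g W = ⊤ := by
    have h1 := (hg T U hT).2 _ (isGLB_genAlgebra m hm _ T U hT)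
    have h2 : (⊤ : B) ∈ lowerBounds (Set.range fun t => g (U t)) := by
      rintro _ ⟨t, rfl⟩
      exact (hU t).ge
    exact top_le_iff.1 (h1.2 h2)
  have hcW : (⟨tr c, trA c⟩ : A) ⊓ W = ⊥ := by
    apply Subtype.ext
    change tr c ∩ (⋂ t, ⋃ s, tr (a t s)) = ∅
    rw [Set.eq_empty_iff_forall_notMem]
    rintro P ⟨h1, h2⟩
    apply P.2
    refine ⟨h1, fun t => ?_⟩
    have := Set.mem_iInter.1 h2 t
    obtain ⟨s, hs⟩ := Set.mem_iUnion.1 this
    exact ⟨s, hs⟩
  have hfin : g ((⟨tr c, trA c⟩ : A) ⊓ W) = c := by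
    rw [map_inf, hgtr, hW, inf_top_eq]
  rw [hcW, map_bot] at hfin
  exact hc0 hfin.symm

end Pool.Agent.Results.MP_0b62d6_lc.WeakExtImpliesWeakDistrib
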